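import Mathlib
import Pool.Agent.H21.Grid

open Finset Filter Topology Pool.Agent.H21.Grid

namespace Pool.Agent.Results.MP_8ac0e4_co.SevenFifths

/-- `F` contains no strong copy of the poset `a < b₁`, `a < b₂` with `b₁, b₂` incomparable. -/
def VFree {k d : ℕ} (F : Finset (Fin d → Fin k)) : Prop :=
  ¬ ∃ a ∈ F, ∃ b₁ ∈ F, ∃ b₂ ∈ F, a < b₁ ∧ a < b₂ ∧ ¬ b₁ ≤ b₂ ∧ ¬ b₂ ≤ b₁

/-- The largest size of a strong `V`-free subset of `[k]^d`. -/
noncomputable def laStar (k d : ℕ) : ℕ := best k d VFree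

theorem bound (m : ℕ) (hm : 4 ≤ m) : 7 * (m * (3 * m - 8)) ≤ 5 * laStar (2 * m) 3 := by
  have h : ∀ c, (fam (2 * m) (3 * m) c).card ≤ laStar (2 * m) 3 := fun c =>
    le_best (by
      rintro ⟨a, ha, x, hx, y, hy, h1, h2, h3, h4⟩
      exact (fam_chain ha hx hy h1.le h2.le).elim h3 h4)
  have h1 := sum_le_card_nsmul (range 5) _ _ (fun c _ => h c)
  rw [fam_sum] at h1
  have l0 := lev_ge m 0 (by omega) hm
  have l1 := lev_ge m 1 (by omega) hm
  have l2 := lev_ge m 2 (by omega) hm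
  simp only [add_zero, card_range, smul_eq_mul] at l0 h1
  omega

theorem result :
    ¬ ∀ d : ℕ, 3 ≤ d →
      Tendsto (fun k : ℕ => (laStar k d : ℝ) / width k d) atTop (𝓝 (1 + 1 / (d : ℝ))) :=
  fun h =>
    not_tendsto (fun k => laStar k 3) 7 _ (by norm_num) bound (h 3 le_rfl)

end Pool.Agent.Results.MP_8ac0e4_co.SevenFifths
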